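import Pool.Agent.Helper70.TW.Goals

set_option autoImplicit false

/-!
# Project TW, packet COEF
-/

namespace Pool.Agent.Helper2.TW

open Polynomial

theorem splits_der {P : ℝ[X]} (h : P.Splits) : (derivative P).Splits := by
  rw [splits_iff_card_roots] at h ⊢
  have h1 := card_roots_le_derivative P
  have h2 := natDegree_derivative_le P
  have h3 := card_roots' (derivative P)
  omega

theorem splits_iter {P : ℝ[X]} (h : P.Splits) (m : ℕ) : (derivative^[m] P).Splits := by
  induction m with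
  | zero => exact h
  | succ m ih =>
    rw [Function.iterate_succ_apply']
    exact splits_der ih

theorem prod_aux (s : Multiset ℝ) :
    (0 ∉ s → ((s.map fun r => X - C r).prod : ℝ[X]).coeff 0 ≠ 0) ∧
    0 ≤ ((s.map fun r => X - C r).prod : ℝ[X]).coeff 1 ^ 2 -
      2 * ((s.map fun r => X - C r).prod : ℝ[X]).coeff 0 *
        ((s.map fun r => X - C r).prod : ℝ[X]).coeff 2 ∧
    (0 ∉ s → s ≠ 0 → 0 < ((s.map fun r => X - C r).prod : ℝ[X]).coeff 1 ^ 2 -
      2 * ((s.map fun r => X - C r).prod : ℝ[X]).coeff 0 *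
        ((s.map fun r => X - C r).prod : ℝ[X]).coeff 2) := by
  induction s using Multiset.induction_on with
  | empty => simp [coeff_one]
  | cons r s ih =>
    obtain ⟨i1, i2, -⟩ := ih
    set h : ℝ[X] := (s.map fun r => X - C r).prod with hh
    have e : ((r ::ₘ s).map fun r => (X - C r : ℝ[X])).prod = (X - C r) * h := by
      rw [Multiset.map_cons, Multiset.prod_cons]
    rw [e]
    have c0 : ((X - C r) * h).coeff 0 = -r * h.coeff 0 := by
      rw [mul_coeff_zero]
      simp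
    have c1 : ((X - C r) * h).coeff 1 = h.coeff 0 - r * h.coeff 1 := by
      rw [sub_mul, coeff_sub, coeff_C_mul, show (1 : ℕ) = 0 + 1 from rfl, coeff_X_mul]
    have c2 : ((X - C r) * h).coeff 2 = h.coeff 1 - r * h.coeff 2 := by
      rw [sub_mul, coeff_sub, coeff_C_mul, show (2 : ℕ) = 1 + 1 from rfl, coeff_X_mul]
    rw [c0, c1, c2]
    have key : (h.coeff 0 - r * h.coeff 1) ^ 2 - 2 * (-r * h.coeff 0) * (h.coeff 1 - r * h.coeff 2) =
        h.coeff 0 ^ 2 + r ^ 2 * (h.coeff 1 ^ 2 - 2 * h.coeff 0 * h.coeff 2) := by ring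
    rw [key]
    have h1 : 0 ≤ r ^ 2 * (h.coeff 1 ^ 2 - 2 * h.coeff 0 * h.coeff 2) := mul_nonneg (sq_nonneg r) i2
    refine ⟨fun hr => ?_, add_nonneg (sq_nonneg _) h1, fun hr _ => ?_⟩
    · rw [Multiset.mem_cons, not_or] at hr
      exact mul_ne_zero (neg_ne_zero.2 (Ne.symm hr.1)) (i1 hr.2)
    · rw [Multiset.mem_cons, not_or] at hr
      have := i1 hr.2
      positivity

theorem deg_zero {P : ℝ[X]} (h : P.Splits) (h0 : P.coeff 0 ≠ 0) (h1 : P.coeff 1 = 0)
    (h2 : P.coeff 2 = 0) : P.natDegree = 0 := by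
  have e := h.eq_prod_roots
  have hP : P ≠ 0 := fun hP => h0 (by rw [hP, coeff_zero])
  have hl : P.leadingCoeff ≠ 0 := leadingCoeff_ne_zero.2 hP
  obtain ⟨-, -, i3⟩ := prod_aux P.roots
  set Q : ℝ[X] := (P.roots.map fun r => X - C r).prod with hQ
  have c : ∀ i, P.coeff i = P.leadingCoeff * Q.coeff i := by
    intro i
    conv_lhs => rw [e]
    rw [coeff_C_mul]
  have hr : (0 : ℝ) ∉ P.roots := by
    intro hmem
    have := (mem_roots hP).1 hmem
    rw [IsRoot, ← coeff_zero_eq_eval_zero] at this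
    exact h0 this
  have q1 : Q.coeff 1 = 0 := (mul_eq_zero.1 ((c 1).symm.trans h1)).resolve_left hl
  have q2 : Q.coeff 2 = 0 := (mul_eq_zero.1 ((c 2).symm.trans h2)).resolve_left hl
  by_contra hne
  have hs : P.roots ≠ 0 := by
    intro h3
    apply hne
    rw [h.natDegree_eq_card_roots, h3, Multiset.card_zero]
  have := i3 hr hs
  rw [q1, q2] at this
  norm_num at this

theorem two_zero {P : ℝ[X]} (h : P.Splits) {i i₀ : ℕ} (hi : i₀ < i) (h0 : P.coeff i₀ ≠ 0)
    (h1 : P.coeff i = 0) (h2 : P.coeff (i + 1) = 0) (m : ℕ) (hm : i ≤ m) : P.coeff m = 0 := by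
  classical
  set g := Nat.findGreatest (fun m => P.coeff m ≠ 0) i with hg
  have g1 : P.coeff g ≠ 0 := Nat.findGreatest_spec (P := fun m => P.coeff m ≠ 0) hi.le h0
  have g2 : g ≤ i := Nat.findGreatest_le i
  have g3 : g < i := lt_of_le_of_ne g2 fun hgi => g1 (by rw [hgi]; exact h1)
  have g4 : ∀ k, g < k → k ≤ i → P.coeff k = 0 := by
    intro k hk1 hk2
    by_contra hne
    exact Nat.findGreatest_is_greatest (P := fun m => P.coeff m ≠ 0) hk1 hk2 hne
  have g5 : P.coeff (g + 1) = 0 := g4 _ (by omega) (by omega)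
  have g6 : P.coeff (g + 2) = 0 := by
    by_cases hgi : g + 2 ≤ i
    · exact g4 _ (by omega) hgi
    · have : g + 2 = i + 1 := by omega
      rw [this]
      exact h2
  have hc : ∀ k, (derivative^[g] P).coeff k = (k + g).descFactorial g • P.coeff (k + g) := fun k =>
    coeff_iterate_derivative P k
  have hd : (derivative^[g] P).natDegree = 0 := by
    refine deg_zero (splits_iter h g) ?_ ?_ ?_
    · rw [hc, zero_add, nsmul_eq_mul]
      refine mul_ne_zero ?_ g1
      have : g.descFactorial g ≠ 0 := by rw [Nat.descFactorial_self]; exact Nat.factorial_ne_zero g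
      exact_mod_cast this
    · rw [hc, add_comm 1 g, g5, smul_zero]
    · rw [hc, add_comm 2 g, g6, smul_zero]
  have h3 : (derivative^[g] P).coeff (m - g) = 0 := coeff_eq_zero_of_natDegree_lt (by omega)
  rw [hc, Nat.sub_add_cancel (by omega), nsmul_eq_mul] at h3
  refine (mul_eq_zero.1 h3).resolve_left ?_
  have : m.descFactorial g ≠ 0 := by
    intro h4
    rw [Nat.descFactorial_eq_zero_iff_lt] at h4
    omega
  exact_mod_cast this

/-- the univariate product -/
noncomputable def G {Λ : Type} [Fintype Λ] (χ : Λ → Fin 2 → ℤ) : ℝ[X] :=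
  ∏ l, (C (χ l 0 : ℝ) * X + C (χ l 1 : ℝ))

theorem G_splits {Λ : Type} [Fintype Λ] (χ : Λ → Fin 2 → ℤ) : (G χ).Splits := by
  unfold G
  refine Splits.prod fun l _ => Splits.of_natDegree_le_one ?_
  exact natDegree_linear_le

theorem factor_ne {a b : ℝ} (h : a ≠ 0 ∨ b ≠ 0) : (C a * X + C b : ℝ[X]) ≠ 0 := by
  intro h0
  have h1 := congrArg (fun P : ℝ[X] => P.coeff 1) h0
  have h2 := congrArg (fun P : ℝ[X] => P.coeff 0) h0
  simp at h1 h2
  rcases h with h | h
  · exact h h1
  · exact h h2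

theorem chi_ne {Λ : Type} {χ : Λ → Fin 2 → ℤ} (h : ∀ l, χ l ≠ 0) (l : Λ) :
    ((χ l 0 : ℤ) : ℝ) ≠ 0 ∨ ((χ l 1 : ℤ) : ℝ) ≠ 0 := by
  by_contra hcon
  push Not at hcon
  obtain ⟨h1, h2⟩ := hcon
  apply h l
  funext k
  fin_cases k
  · exact_mod_cast h1
  · exact_mod_cast h2

theorem G_top {Λ : Type} [Fintype Λ] {χ : Λ → Fin 2 → ℤ} (h : ∀ l, χ l ≠ 0) {B : ℕ}
    (hB : (Finset.univ.filter (fun l => χ l 0 = 0)).card = B) :
    (G χ).coeff (Fintype.card Λ - B) ≠ 0 := by
  classical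
  have hne : ∀ l ∈ (Finset.univ : Finset Λ), (C (χ l 0 : ℝ) * X + C (χ l 1 : ℝ) : ℝ[X]) ≠ 0 :=
    fun l _ => factor_ne (chi_ne h l)
  have hG : G χ ≠ 0 := Finset.prod_ne_zero_iff.2 hne
  have hd : (G χ).natDegree = Fintype.card Λ - B := by
    unfold G
    rw [natDegree_prod _ _ hne]
    have h1 : ∀ l, (C (χ l 0 : ℝ) * X + C (χ l 1 : ℝ) : ℝ[X]).natDegree =
        if χ l 0 = 0 then 0 else 1 := by
      intro l
      split_ifs with h0
      · rw [h0]
        simp
      · exact natDegree_linear (by exact_mod_cast h0)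
    simp only [h1]
    rw [Finset.sum_ite, Finset.sum_const_zero, zero_add, Finset.sum_const, smul_eq_mul, mul_one]
    have h2 := Finset.card_filter_add_card_filter_not (s := (Finset.univ : Finset Λ))
      (fun l => χ l 0 = 0)
    rw [Finset.card_univ, hB] at h2
    omega
  rw [← hd]
  exact leadingCoeff_ne_zero.2 hG

theorem G_bot {Λ : Type} [Fintype Λ] {χ : Λ → Fin 2 → ℤ} (h : ∀ l, χ l ≠ 0) {A : ℕ}
    (hA : (Finset.univ.filter (fun l => χ l 1 = 0)).card = A) : (G χ).coeff A ≠ 0 := by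
  classical
  have h1 : G χ = (∏ l with χ l 1 = 0, (C (χ l 0 : ℝ) * X + C (χ l 1 : ℝ) : ℝ[X])) *
      ∏ l with ¬ χ l 1 = 0, (C (χ l 0 : ℝ) * X + C (χ l 1 : ℝ) : ℝ[X]) :=
    (Finset.prod_filter_mul_prod_filter_not _ _ _).symm
  have h2 : (∏ l with χ l 1 = 0, (C (χ l 0 : ℝ) * X + C (χ l 1 : ℝ) : ℝ[X])) =
      C (∏ l with χ l 1 = 0, (χ l 0 : ℝ)) * X ^ A := by
    rw [map_prod, ← hA, ← Finset.prod_const, ← Finset.prod_mul_distrib]
    refine Finset.prod_congr rfl fun l hl => ?_
    rw [(Finset.mem_filter.1 hl).2]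
    simp
  rw [h1, h2, mul_assoc, coeff_C_mul, coeff_X_pow_mul' , if_pos le_rfl, Nat.sub_self,
    coeff_zero_eq_eval_zero, eval_prod]
  refine mul_ne_zero (Finset.prod_ne_zero_iff.2 fun l hl => ?_)
    (Finset.prod_ne_zero_iff.2 fun l hl => ?_)
  · have h3 : χ l 1 = 0 := (Finset.mem_filter.1 hl).2
    rcases chi_ne h l with h4 | h4
    · exact h4
    · rw [h3] at h4
      exact absurd (by simp) h4
  · have h3 : ¬ χ l 1 = 0 := (Finset.mem_filter.1 hl).2
    simp only [eval_add, eval_mul, eval_C, eval_X, mul_zero, zero_add]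
    exact_mod_cast h3

/-- the coefficients of the product of the linear forms -/
theorem coeff_eq {Λ : Type} [Fintype Λ] (χ : Λ → Fin 2 → ℤ) {j : ℕ} (hj : j ≤ Fintype.card Λ) :
    (G χ).coeff j = ((MvPolynomial.coeff (Finsupp.equivFunOnFinite.symm ![j, Fintype.card Λ - j])
      (∏ l, ∑ k, MvPolynomial.C (χ l k) * MvPolynomial.X k : MvPolynomial (Fin 2) ℤ) : ℤ) : ℝ) := by
  classical
  set P : MvPolynomial (Fin 2) ℤ := ∏ l, ∑ k, MvPolynomial.C (χ l k) * MvPolynomial.X k with hP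
  set φ : MvPolynomial (Fin 2) ℤ →+* ℝ[X] := MvPolynomial.eval₂Hom
    ((C : ℝ →+* ℝ[X]).comp (Int.castRingHom ℝ)) ![X, 1] with hφ
  have h1 : φ P = G χ := by
    rw [hP, map_prod]
    unfold G
    refine Finset.prod_congr rfl fun l _ => ?_
    rw [Fin.sum_univ_two, map_add, map_mul, map_mul]
    simp [hφ]
  have hhom : P.IsHomogeneous (Fintype.card Λ) := by
    have h2 := MvPolynomial.IsHomogeneous.prod (Finset.univ : Finset Λ)
      (fun l => (∑ k, MvPolynomial.C (χ l k) * MvPolynomial.X k : MvPolynomial (Fin 2) ℤ))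
      (fun _ => 1) (fun l _ => by
        refine MvPolynomial.IsHomogeneous.sum _ _ _ fun k _ => ?_
        have := (MvPolynomial.isHomogeneous_C (Fin 2) (χ l k)).mul
          (MvPolynomial.isHomogeneous_X ℤ k)
        rwa [zero_add] at this)
    rw [Finset.sum_const, Finset.card_univ, smul_eq_mul, mul_one] at h2
    exact h2
  have h3 : φ P = ∑ d ∈ P.support, C ((P.coeff d : ℤ) : ℝ) * X ^ (d 0) := by
    rw [hφ, MvPolynomial.coe_eval₂Hom, MvPolynomial.eval₂_eq']
    refine Finset.sum_congr rfl fun d _ => ?_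
    rw [Fin.prod_univ_two]
    simp
  rw [← h1, h3, finset_sum_coeff]
  simp only [coeff_C_mul, coeff_X_pow]
  set d₀ : Fin 2 →₀ ℕ := Finsupp.equivFunOnFinite.symm ![j, Fintype.card Λ - j] with hd₀
  rw [Finset.sum_eq_single d₀]
  · have : j = d₀ 0 := by simp [hd₀]
    rw [if_pos this, mul_one]
  · intro d hd hne
    by_cases hj0 : j = d 0
    · exfalso
      apply hne
      have h4 : Finsupp.weight 1 d = Fintype.card Λ := hhom (MvPolynomial.mem_support_iff.1 hd)
      have h5 : d 0 + d 1 = Fintype.card Λ := by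
        rw [Finsupp.weight_apply, Finsupp.sum_fintype _ _ (by simp), Fin.sum_univ_two] at h4
        simpa using h4
      ext i
      fin_cases i
      · simp [hd₀, hj0]
      · simp only [hd₀]
        show d 1 = _
        simp
        omega
    · rw [if_neg hj0, mul_zero]
  · intro hd
    rw [MvPolynomial.notMem_support_iff.1 hd]
    simp

/-- Packet TW-COEF. -/
theorem coef : Pool.Agent.Helper70.TW.COEF := by
  intro Λ _ χ A B hχ hA hB j hAj hjB
  by_contra hcon
  push Not at hcon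
  obtain ⟨h1, h2⟩ := hcon
  have e1 : (G χ).coeff j = 0 := by
    rw [coeff_eq χ (by omega), h1, Int.cast_zero]
  have e2 : (G χ).coeff (j + 1) = 0 := by
    rw [coeff_eq χ (by omega), h2, Int.cast_zero]
  have hb := G_bot hχ hA
  have ht := G_top hχ hB
  have hlt : A < j := lt_of_le_of_ne hAj fun h => hb (by rw [h]; exact e1)
  exact ht (two_zero (G_splits χ) hlt hb e1 e2 _ (by omega))

end Pool.Agent.Helper2.TW
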